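import Pool.Agent.H0.Lexi.NoIso

set_option autoImplicit false
open MeasureTheory

namespace Pool.Agent.Results.MP_ca8afd_an.NotHinf
open Pool.Agent.Lexi

/-- There are a compact Hausdorff `S`, a closed subalgebra `A ⊆ C(S)` containing the constants and a
finite positive Borel measure `σ` satisfying (i), (ii), (H1), (H2), with the support of `σ` having
more than one point, such that `A_σ` is not isomorphic to `H^∞(𝔻)`. -/
theorem result : ∃ (S : Type) (_ : TopologicalSpace S) (_ : CompactSpace S) (_ : T2Space S)
    (_ : MeasurableSpace S) (_ : BorelSpace S) (A : SubAlg S) (σ : Measure S)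
    (_ : IsFiniteMeasure σ),
    IsClosed (A : Set C(S, ℂ)) ∧ CondI A ∧ CondII A ∧ TwoPoints σ ∧ CondH1 A σ ∧ CondH2 A σ ∧
      ¬ IsoHinf A σ :=
  ⟨SS, inferInstance, inferInstance, inferInstance, inferInstance, inferInstance, AA, sig,
    inferInstance, AA_closed, condI, condII, twoPoints, condH1, condH2, no_iso⟩

end Pool.Agent.Results.MP_ca8afd_an.NotHinf
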